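import Mathlib
import Pool.Agent.helper27.StabNeg
import Pool.Agent.helper27.StabRep

/-!
# Stability does not pass to finite-index overgroups

There is a countable (locally finite) group `G` with a subgroup `H` of index two such that the full
group C*-algebra of `H` is weakly semiprojective, hence matricially weakly semiprojective, while the
full group C*-algebra of `G` is not matricially weakly semiprojective, hence not weakly
semiprojective.

* `Pool.Agent.helper27.SeqQuot`: the C*-algebra `∏ B n / ⊕ B n`.
* `Pool.Agent.helper27.FullGroup`: the full group C*-algebra; its existence and universal property.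
* `Pool.Agent.helper27.StabLift`: it is also universal for non-unital representations.
* `Pool.Agent.helper27.FinStab`: almost representations of finite groups are close to
  representations.
* `Pool.Agent.helper27.StabDef`: unions of finite retracts are weakly C*-stable.
* `Pool.Agent.helper27.StabGroup`: the groups.  `H` is a union of finite retracts.
* `Pool.Agent.helper27.StabRep`, `Pool.Agent.helper27.StabNeg`: `G` has asymptotic representations
  by matrices which are not close to representations.

Every element of `G` has order dividing four and `G` is nilpotent of class two.  The elements of `G`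
are `(k, s, c, p, q, z, y)` with `k, s, y` in `ZMod 2` and `c, p, q, z` finitely supported functions
`ℕ → ZMod 2`; with `w_i, u_i, v_i, e_i` the basis elements of the coordinates `c, p, q, z`, the
nontrivial commutators are `[w_i, k] = e_i`, `[u_i, v_i] = e_i` and `[w_i, s] = y`.  `H` is given by
`s = 0`.
-/

open Filter Topology Set
open scoped ENNReal

noncomputable section

namespace Pool.Agent.Results.MP_7c14f5_an.FiniteIndexOvergroup

open Pool.Agent.helper27.Stab Pool.Agent.helper27.Stab.GG

/-- A `*`-homomorphism `A → ∏ B n / ⊕ B n`, given by representatives: for every `a` the sequence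
`φ a` is bounded, and `φ` is linear, multiplicative and `*`-preserving up to sequences that tend to
`0` in norm. -/
structure IsHomModNull {A : Type} [CStarAlgebra A] {B : ℕ → Type} [∀ n, NonUnitalCStarAlgebra (B n)]
    (φ : A → ∀ n, B n) : Prop where
  bounded : ∀ a, ∃ C : ℝ, ∀ n, ‖φ a n‖ ≤ C
  map_add : ∀ a b, Tendsto (fun n => ‖φ (a + b) n - (φ a n + φ b n)‖) atTop (𝓝 0)
  map_smul : ∀ (c : ℂ) a, Tendsto (fun n => ‖φ (c • a) n - c • φ a n‖) atTop (𝓝 0)
  map_mul : ∀ a b, Tendsto (fun n => ‖φ (a * b) n - φ a n * φ b n‖) atTop (𝓝 0)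
  map_star : ∀ a, Tendsto (fun n => ‖φ (star a) n - star (φ a n)‖) atTop (𝓝 0)

/-- Every `*`-homomorphism `A → ∏ B n / ⊕ B n` lifts to a `*`-homomorphism `A → ∏ B n`, that is, to
a sequence of `*`-homomorphisms `A → B n` (these are contractive, so the sequence takes values in
the bounded sequences). -/
def Lifts (A : Type) [CStarAlgebra A] (B : ℕ → Type) [∀ n, NonUnitalCStarAlgebra (B n)] : Prop :=
  ∀ φ : A → ∀ n, B n, IsHomModNull φ →
    ∃ ψ : ∀ n, A →⋆ₙₐ[ℂ] B n, ∀ a, Tendsto (fun n => ‖ψ n a - φ a n‖) atTop (𝓝 0)

/-- `A` is weakly semiprojective: for every sequence of separable C*-algebras `B n`, every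
`*`-homomorphism `A → ∏ B n / ⊕ B n` lifts to a `*`-homomorphism `A → ∏ B n`. -/
def WeaklySemiprojective (A : Type) [CStarAlgebra A] : Prop :=
  ∀ (B : ℕ → Type) [∀ n, NonUnitalCStarAlgebra (B n)]
    [∀ n, TopologicalSpace.SeparableSpace (B n)], Lifts A B

/-- The matrix algebra `M_k(ℂ)`, as the C*-algebra of the operators on the Hilbert space `ℂ^k`. -/
abbrev MatAlg (k : ℕ) : Type := EuclideanSpace ℂ (Fin k) →L[ℂ] EuclideanSpace ℂ (Fin k)

/-- `A` is matricially weakly semiprojective: for every sequence `k`, every `*`-homomorphism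
`A → ∏ M_{k n}(ℂ) / ⊕ M_{k n}(ℂ)` lifts to a `*`-homomorphism `A → ∏ M_{k n}(ℂ)`. -/
def MatriciallyWeaklySemiprojective (A : Type) [CStarAlgebra A] : Prop :=
  ∀ k : ℕ → ℕ, Lifts A fun n => MatAlg (k n)

lemma homLifts_of_lifts {A : Type} [CStarAlgebra A] {B : ℕ → Type}
    [∀ n, NonUnitalCStarAlgebra (B n)] (h : Lifts A B) : HomLifts A B := by
  intro φ
  choose φ' hφ' using fun a => mk_surjective (φ a)
  have key : ∀ x y : BddSeq B, mk x = mk y →
      Tendsto (fun n => ‖coord x n - coord y n‖) atTop (𝓝 0) := fun x y hxy => by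
    rw [mk_eq, mem_nullSeq] at hxy
    exact hxy
  obtain ⟨ψ, hψ⟩ := h (fun a n => coord (φ' a) n)
    { bounded := fun a => ⟨‖φ' a‖, fun n => norm_coord_le _ n⟩
      map_add := fun a b => key (φ' (a + b)) (φ' a + φ' b) (by
        rw [mk_add, hφ', hφ', hφ', _root_.map_add])
      map_smul := fun c a => key (φ' (c • a)) (c • φ' a) (by
        rw [mk_smul, hφ', hφ', _root_.map_smul])
      map_mul := fun a b => key (φ' (a * b)) (φ' a * φ' b) (by
        rw [mk_mul, hφ', hφ', hφ', _root_.map_mul])
      map_star := fun a => key (φ' (star a)) (star (φ' a)) (by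
        rw [mk_star, hφ', hφ', StarHomClass.map_star]) }
  have hb : ∀ a, ∃ C, ∀ n, ‖ψ n a‖ ≤ C := fun a =>
    ⟨‖a‖, fun n => NonUnitalStarAlgHom.norm_apply_le (ψ n) a⟩
  refine ⟨{ toFun := fun a => ofFun (fun n => ψ n a) (hb a)
            map_smul' := fun c a => BddSeq.ext fun n => _root_.map_smul (ψ n) c a
            map_zero' := BddSeq.ext fun n => _root_.map_zero (ψ n)
            map_add' := fun a b => BddSeq.ext fun n => _root_.map_add (ψ n) a b
            map_mul' := fun a b => BddSeq.ext fun n => _root_.map_mul (ψ n) a b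
            map_star' := fun a => BddSeq.ext fun n => StarHomClass.map_star (ψ n) a }, fun a => ?_⟩
  rw [← hφ' a, mk_eq, mem_nullSeq]
  exact hψ a

lemma lifts_of_homLifts {A : Type} [CStarAlgebra A] {B : ℕ → Type}
    [∀ n, NonUnitalCStarAlgebra (B n)] (h : HomLifts A B) : Lifts A B := by
  intro φ hφ
  let φ' : A → BddSeq B := fun a => ofFun (φ a) (hφ.bounded a)
  have hc : ∀ a n, coord (φ' a) n = φ a n := fun a n => rfl
  obtain ⟨ψ, hψ⟩ := h
    { toFun := fun a => mk (φ' a)
      map_smul' := fun c a => by
        rw [MonoidHom.id_apply, ← mk_smul, mk_eq, mem_nullSeq]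
        exact hφ.map_smul c a
      map_zero' := by
        rw [← mk_zero, mk_eq, mem_nullSeq]
        have h0 := hφ.map_smul 0 0
        simp only [zero_smul] at h0
        exact h0
      map_add' := fun a b => by
        rw [← mk_add, mk_eq, mem_nullSeq]
        exact hφ.map_add a b
      map_mul' := fun a b => by
        rw [← mk_mul, mk_eq, mem_nullSeq]
        exact hφ.map_mul a b
      map_star' := fun a => by
        rw [← mk_star, mk_eq, mem_nullSeq]
        exact hφ.map_star a }
  refine ⟨fun n =>
    { toFun := fun a => coord (ψ a) n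
      map_smul' := fun c a => by rw [_root_.map_smul]; rfl
      map_zero' := by rw [_root_.map_zero]; rfl
      map_add' := fun a b => by rw [_root_.map_add]; rfl
      map_mul' := fun a b => by rw [_root_.map_mul]; rfl
      map_star' := fun a => by rw [StarHomClass.map_star]; rfl }, fun a => ?_⟩
  have h1 := hψ a
  change mk (ψ a) = mk (φ' a) at h1
  rw [mk_eq, mem_nullSeq] at h1
  exact h1

lemma ev_supp (f : ℕ →₀ ZMod 2) : ∀ᶠ m in atTop, ∀ i, f i ≠ 0 → i < m := by
  filter_upwards [eventually_gt_atTop (f.support.sup id)] with m hm i hi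
  have h2 : i ∈ f.support := Finsupp.mem_support_iff.2 hi
  have h3 : i ≤ f.support.sup id := Finset.le_sup (f := id) h2
  omega

lemma norm_ge {D : Type*} [CStarAlgebra D] {S0 : D} (h1 : S0 * S0 = 1) (h2 : star S0 = S0)
    (h3 : S0 ≠ -1) : 1 ≤ ‖1 + S0‖ := by
  by_contra h
  push Not at h
  apply h3
  have h4 : (1 / 2 : ℝ) • (1 + S0) = 0 := by
    apply proj_eq_zero
    · rw [smul_mul_smul_comm, mul_add, add_mul, add_mul, h1, one_mul, mul_one, one_mul]
      have : (1 + S0 + (S0 + 1) : D) = (2 : ℝ) • (1 + S0) := by
        rw [two_smul]; abel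
      rw [this, smul_smul]
      norm_num
    · rw [star_smul, star_add, star_one, h2, star_trivial]
    · rw [norm_smul]
      norm_num
      linarith
  have h5 : 1 + S0 = 0 := (smul_eq_zero.1 h4).resolve_left (by norm_num)
  exact eq_neg_of_add_eq_zero_right h5

lemma rep_E {m : ℕ} (hm : 1 ≤ m) : rep m (E 0) = -1 := by
  have h1 : sig m (E 0) = -1 := by
    have h2 : sig m (E 0) = mono (fun _ => (-1 : ℂ)) (Equiv.refl (Idx m)) := by
      rw [sig]
      have h3 : Equiv.addRight (sh m (E 0)) = Equiv.refl (Idx m) := by
        apply Equiv.ext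
        intro v
        have : sh m (E 0) = 0 := by
          apply Prod.ext
          · simp [sh, E]
          · funext i; simp [sh, E]
        simp [this]
      rw [h3]
      congr 1
      funext v
      have h4 : ex m (E 0) v = 1 := by
        simp only [ex, E, Finsupp.coe_zero, Pi.zero_apply, zero_mul, Finset.sum_const_zero,
          add_zero, zero_add]
        rw [Finset.sum_eq_single (⟨0, hm⟩ : Fin m)]
        · simp
        · intro i _ hi
          have : (i : ℕ) ≠ 0 := fun h => hi (Fin.ext h)
          rw [Finsupp.single_apply, if_neg (Ne.symm this)]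
        · intro h; exact absurd (Finset.mem_univ _) h
      rw [h4, sgn_one]
    rw [h2, ← mono_one]
    ext x y
    rw [Matrix.neg_apply]
    simp only [mono, Matrix.of_apply]
    by_cases h : y = (Equiv.refl (Idx m)) x
    · rw [if_pos h, if_pos h]
    · rw [if_neg h, if_neg h, neg_zero]
  rw [rep, h1, Matrix.submatrix_neg]
  change Matrix.toEuclideanCLM (𝕜 := ℂ) (-(Matrix.submatrix 1 (eqv m) (eqv m))) = _
  rw [map_neg, Matrix.submatrix_one_equiv, map_one]

lemma sig_S (m : ℕ) : sig m S = mono (fun v => sgn v.1) (Equiv.refl (Idx m)) := by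
  rw [sig]
  have h3 : Equiv.addRight (sh m S) = Equiv.refl (Idx m) := by
    apply Equiv.ext
    intro v
    have : sh m S = 0 := by
      apply Prod.ext
      · simp [sh, S]
      · funext i; simp [sh, S]
    simp [this]
  rw [h3]
  congr 1
  funext v
  simp [ex, S]

lemma sig_K (m : ℕ) : sig m K = sig m S := by
  rw [sig_S, sig]
  have h3 : Equiv.addRight (sh m K) = Equiv.refl (Idx m) := by
    apply Equiv.ext
    intro v
    have : sh m K = 0 := by
      apply Prod.ext
      · simp [sh, K]
      · funext i; simp [sh, K]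
    simp [this]
  rw [h3]
  congr 1
  funext v
  simp [ex, K]

lemma rep_S_ne (m : ℕ) : rep m S ≠ -1 := by
  intro h
  have h1 : Matrix.toEuclideanCLM (𝕜 := ℂ) ((sig m S).submatrix (eqv m) (eqv m)) =
      Matrix.toEuclideanCLM (𝕜 := ℂ) (-1 : Matrix (Fin (dimn m)) (Fin (dimn m)) ℂ) := by
    rw [map_neg, map_one]
    exact h
  have h2 := (Matrix.toEuclideanCLM (𝕜 := ℂ) (n := Fin (dimn m))).injective h1
  have h3 := congrFun (congrFun h2 ((eqv m).symm 0)) ((eqv m).symm 0)
  rw [Matrix.submatrix_apply, Equiv.apply_symm_apply, sig_S] at h3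
  simp [mono, sgn] at h3
  norm_num at h3

theorem not_repLifts : ¬ RepLifts GG (fun m => MatAlg (dimn m)) := by
  intro hL
  have hbd : ∀ g, ∃ C, ∀ m, ‖rep m g‖ ≤ C := fun g => ⟨1, fun m => norm_rep_le m g⟩
  let σ : GG → BddSeq (fun m => MatAlg (dimn m)) := fun g => ofFun (fun m => rep m g) (hbd g)
  have hσ : ∀ g m, coord (σ g) m = rep m g := fun g m => rfl
  have hrep : IsRep (fun g => mk (σ g)) := by
    constructor
    · intro g h
      rw [← mk_mul, mk_eq, mem_nullSeq]
      apply tendsto_const_nhds.congr'
      filter_upwards [ev_supp g.c] with m hm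
      rw [coord_sub, coord_mul, hσ, hσ, hσ, rep_mul g h hm, sub_self, norm_zero]
    · intro g
      rw [← mk_star, mk_eq, mem_nullSeq]
      apply tendsto_const_nhds.congr'
      filter_upwards [ev_supp g.c] with m hm
      rw [coord_sub, coord_star, hσ, hσ, rep_inv g hm, sub_self, norm_zero]
  obtain ⟨ρ, hρ, hρ'⟩ := hL _ hrep
  have hclose : ∀ g, ∀ᶠ m in atTop, ‖coord (ρ g) m - rep m g‖ < 1 / 10 := by
    intro g
    have h1 := hρ' g
    rw [mk_eq, mem_nullSeq] at h1
    have h2 := h1.eventually (gt_mem_nhds (show (0 : ℝ) < 1 / 10 by norm_num))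
    filter_upwards [h2] with m hm
    rwa [coord_sub, hσ] at hm
  obtain ⟨m, hm1, hmE, hmS, hmK, hm⟩ := ((hclose 1).and ((hclose (E 0)).and ((hclose S).and
    ((hclose K).and (eventually_ge_atTop 1))))).exists
  have hR : IsRep (fun g => coord (ρ g) m) := by
    constructor
    · intro g h
      rw [hρ.mul, coord_mul]
    · intro g
      rw [hρ.inv, coord_star]
  have hSc : ∀ i, S.c i ≠ 0 → i < m := by intro i hi; exact absurd rfl hi
  have hS0 : rep m S * rep m S = 1 := by rw [← rep_mul S S hSc, S_sq, rep_one]
  have hSs : star (rep m S) = rep m S := by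
    rw [← rep_inv S hSc]
    congr 1
    exact inv_eq_of_mul_eq_one_left S_sq
  have hKS : rep m K = rep m S := by rw [rep, rep, sig_K]
  refine no_rep (D := MatAlg (dimn m)) (R := fun g => coord (ρ g) m) hR ?_ ?_ hS0 (norm_rep_le m S)
    (norm_ge hS0 hSs (rep_S_ne m)) hmS.le ?_
  · rw [rep_one] at hm1
    linarith
  · rw [rep_E hm, sub_neg_eq_add] at hmE
    linarith
  · rw [hKS] at hmK
    exact hmK.le

/-- **Stability does not pass to finite-index overgroups.**  There are a countable group `G` and a
subgroup `H` of index two such that the full group C*-algebra of `H` is weakly semiprojective and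
matricially weakly semiprojective, and the full group C*-algebra of `G` is neither. -/
theorem result :
    ∃ (G : Type) (_ : Group G) (_ : Countable G) (H : Subgroup G), H.index = 2 ∧
    (∃ (A : Type) (_ : CStarAlgebra A) (ι : H →* unitary A), IsFullGroupCStar H A ι ∧
      WeaklySemiprojective A ∧ MatriciallyWeaklySemiprojective A) ∧
    (∃ (A : Type) (_ : CStarAlgebra A) (ι : G →* unitary A), IsFullGroupCStar G A ι ∧
      ¬ WeaklySemiprojective A ∧ ¬ MatriciallyWeaklySemiprojective A) := by
  refine ⟨GG, inferInstance, inferInstance, HH, index_HH,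
    ⟨FullC HH, inferInstance, ofG, isFullGroupCStar_ofG HH, ?_, ?_⟩,
    ⟨FullC GG, inferInstance, ofG, isFullGroupCStar_ofG GG, ?_, ?_⟩⟩
  · intro B _ _
    exact lifts_of_homLifts (homLifts_of_repLifts (isFullGroupCStar_ofG HH)
      (repLifts_of_retracts HH.r HH.finite_range HH.r_eventually B))
  · intro k
    exact lifts_of_homLifts (homLifts_of_repLifts (isFullGroupCStar_ofG HH)
      (repLifts_of_retracts HH.r HH.finite_range HH.r_eventually _))
  · intro h
    exact not_repLifts (repLifts_of_homLifts (isFullGroupCStar_ofG GG)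
      (homLifts_of_lifts (h _)))
  · intro h
    exact not_repLifts (repLifts_of_homLifts (isFullGroupCStar_ofG GG)
      (homLifts_of_lifts (h _)))

end Pool.Agent.Results.MP_7c14f5_an.FiniteIndexOvergroup
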